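import Pool.Agent.V7H96.HG.Main

set_option autoImplicit false

/-!
# The rank and the chromatic number of graphs without a given induced subgraph

Let `r` be the real rank of the adjacency matrix of a finite graph `G` and `χ` its chromatic number. By a
theorem of Lovász and Saks the log-rank conjecture is equivalent to the bound
`log χ ≤ (1 + log r) ^ O(1)` for all graphs `G`. We prove this bound for all graphs which are not
universal: if some graph on `k` vertices (any graph) is not an induced subgraph of `G`, then
`log₂ χ ≤ 7 (k + 1) (1 + log₂ (r + 1))²`. So a counterexample to this form of the conjecture contains
all small graphs as induced subgraphs, and the conjecture holds in this form for every hereditary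
class of graphs except the class of all graphs.

Proof. Let `B` be the missing graph. A greedy embedding of `B` fails, so that there are two large sets
of vertices with very few edges, or very few missing edges, between the vertices of the first and the
second one. As the rank is small, the few edges concern only a half of the second set: so each set
`U` of vertices contains a homogeneous pair of sets of size `|U| / r ^ O(k)`. Iteration gives `r + 1`
sets with no edges between them or `r + 1` sets with all edges between them. The second case
contradicts the rank, and in the first one some set has no edges inside. So each set `U` of vertices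
contains an independent set of size `|U| / exp (O (k log² r))`, and there are at most `2 ^ r` different
neighbourhoods.
-/

namespace Pool.Agent.Results.MP_e5d384_lc.ChromaticNumberH96

open Classical in
/-- the real rank of the adjacency matrix of a graph -/
noncomputable def rk {V : Type} [Fintype V] (G : SimpleGraph V) : ℕ :=
  (Matrix.of (fun x y : V => if G.Adj x y then (1 : ℝ) else 0)).rank

/-- **The rank and the chromatic number of graphs without a given induced subgraph.** If the graph `B`
on `k` vertices is not an induced subgraph of the finite graph `G`, then `G` has a colouring with `q`
colours, `log₂ q ≤ 7 (k + 1) (1 + log₂ (rank + 1))²`, where `rank` is the real rank of the adjacency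
matrix of `G`. -/
theorem result (V : Type) [Fintype V] (G : SimpleGraph V) (k : ℕ) (B : SimpleGraph (Fin k))
    (hB : IsEmpty (B ↪g G)) :
    ∃ q : ℕ, G.Colorable q ∧ Real.logb 2 q ≤ 7 * (k + 1) * (1 + Real.logb 2 (rk G + 1)) ^ 2 := by
  classical
  have h : rk G = Pool.Agent.V7H96.HG.prk G.Adj := by
    rw [Pool.Agent.V7H96.HG.prk_eq_rank G.Adj
      (Matrix.of (fun x y : V => if G.Adj x y then (1 : ℝ) else 0))]
    · unfold rk
      congr
    · intro x y
      unfold Pool.Agent.V7H96.HG.prow
      by_cases h : G.Adj x y <;> simp [h]
  rw [h]
  exact ⟨_, Pool.Agent.V7H96.HG.colouring G B hB, Pool.Agent.V7H96.HG.logb_qcol k _⟩

end Pool.Agent.Results.MP_e5d384_lc.ChromaticNumberH96
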