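import Pool.Agent.V7H36.LR.Final
import Pool.Agent.V7H36.LR.Prog

/-!
# The log-rank conjecture for products over a finite monoid and for bounded-width programs

`F(x, y) = φ(g_1(x_1, y_1) g_2(x_2, y_2) ⋯ g_n(x_n, y_n))`, product in a fixed finite monoid `M`,
arbitrary gadgets `g_i` and arbitrary `φ`; in particular all functions computed by read-once
programs of bounded width under an arbitrary partition of the variables.
-/

set_option autoImplicit false

namespace Pool.Agent.Results.MP_e5d384_lc.FiniteMonoidProgramsH36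

open Pool.Agent.V7H36.LR (Tr)

/-- `F` has a deterministic two-party protocol with exactly `c` bits. (Protocols exactly as in the
frozen statement S15531: `t` is the transcript so far, `owner t` says who speaks, and the answer is
a function of the transcript.) -/
def HasProtocol {X Y : Type} (F : X → Y → Bool) (c : ℕ) : Prop :=
  ∃ (owner : List Bool → Bool) (a : List Bool → X → Bool)
      (b : List Bool → Y → Bool) (out : List Bool → Bool),
      ∀ x y, out (Nat.iterate
        (fun t : List Bool => t ++ [if owner t then a t x else b t y]) c []) = F x y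

/-- `log₂` of the real rank of the communication matrix of `F` (`0` if the rank is `0`) -/
noncomputable def logRank {X Y : Type} [Fintype X] [Fintype Y] (F : X → Y → Bool) : ℝ :=
  Real.logb 2 ((Matrix.of (fun (x : X) (y : Y) => if F x y then (1 : ℝ) else 0)).rank : ℝ)

/-- the product `g_1(x_1, y_1) g_2(x_2, y_2) ⋯ g_n(x_n, y_n)` in the monoid `M` -/
def product {M : Type} [Monoid M] {n : ℕ} {X Y : Fin n → Type} (g : ∀ i, X i → Y i → M)
    (x : ∀ i, X i) (y : ∀ i, Y i) : M :=
  (List.ofFn (fun i => g i (x i) (y i))).prod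

/-- one pass of a program with states `0, …, w - 1` over the input `(x, y)`: in step `i` the program
reads `x_i` and `y_i` and changes its state; the steps are made in the order `1, …, n`, or in the
order `n, …, 1` if `back` is true -/
def pass {w n : ℕ} (back : Bool) (δ : Fin n → Bool → Bool → Fin w → Fin w) (x y : Fin n → Bool)
    (s : Fin w) : Fin w :=
  if back then (List.ofFn (fun i => δ i (x i) (y i))).foldr (fun f s => f s) s
  else (List.ofFn (fun i => δ i (x i) (y i))).foldl (fun s f => f s) s

/-- the function computed by a program of width `w` that makes `p` passes -/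
def programFun {w n p : ℕ} (back : Fin p → Bool) (δ : Fin p → Fin n → Bool → Bool → Fin w → Fin w)
    (s₀ : Fin w) (acc : Fin w → Bool) (x y : Fin n → Bool) : Bool :=
  acc ((List.ofFn (fun j => pass (back j) (δ j) x y)).foldl (fun s f => f s) s₀)

theorem prot_iff {X Y : Type} (F : X → Y → Bool) (c : ℕ) :
    HasProtocol F c ↔ Pool.Agent.TH744.LR.Prot F c := Iff.rfl

theorem logRank_le {X Y : Type} [Fintype X] [Fintype Y] (F : X → Y → Bool) (lam : ℕ)
    (h : (Pool.Agent.V7H36.LR.cmat F).rank ≤ 2 ^ lam) : logRank F ≤ lam := by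
  unfold logRank
  change Real.logb 2 ((Pool.Agent.V7H36.LR.cmat F).rank : ℝ) ≤ lam
  rcases Nat.eq_zero_or_pos (Pool.Agent.V7H36.LR.cmat F).rank with h0 | h0
  · rw [h0]
    simp
  · rw [Real.logb_le_iff_le_rpow (by norm_num) (by exact_mod_cast h0), Real.rpow_natCast]
    exact_mod_cast h

theorem log_le {X Y : Type} [Fintype X] [Fintype Y] (F : X → Y → Bool) :
    (Nat.log 2 (Pool.Agent.V7H36.LR.cmat F).rank : ℝ) ≤ logRank F := by
  exact_mod_cast Real.natLog_le_logb (Pool.Agent.V7H36.LR.cmat F).rank 2

theorem closure {M : Type} [Fintype M] [Monoid M] (d K n : ℕ) (X Y : Fin n → Type)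
    [∀ i, Fintype (X i)] [∀ i, Fintype (Y i)] (g : ∀ i, X i → Y i → M) (φ : M → Bool)
    (hg : ∀ i (Z : M → Bool), ∃ b : ℕ, HasProtocol (fun x y => Z (g i x y)) b ∧
      (b : ℝ) ≤ K * (logRank (fun x y => Z (g i x y)) + 1) ^ d) :
    ∃ b : ℕ, HasProtocol (fun x y => φ (product g x y)) b ∧
      (b : ℝ) ≤ (Pool.Agent.V7H36.LR.bigC (Fintype.card M) d : ℕ) * (K + 1 : ℝ) ^ 2 *
        (logRank (fun x y => φ (product g x y)) + 1) ^
          (4 * Pool.Agent.V7H36.LR.height (Fintype.card M) + 2 * d) := by
  have h := Pool.Agent.V7H36.LR.final_nat d K n X Y g φ (fun i Z lam hlam => by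
    obtain ⟨b, hb, hbK⟩ := hg i Z
    refine Pool.Agent.TH744.LR.Prot.mono hb ?_
    have h1 := logRank_le _ lam hlam
    have h2 : (0 : ℝ) ≤ logRank (fun x y => Z (g i x y)) :=
      (Nat.cast_nonneg _).trans (log_le _)
    have h3 : (b : ℝ) ≤ ((K * (lam + 1) ^ d : ℕ) : ℝ) := by
      push_cast
      exact hbK.trans (by gcongr)
    exact_mod_cast h3)
  refine ⟨_, h, ?_⟩
  push_cast
  have h1 := log_le (fun (x : ∀ i, X i) (y : ∀ i, Y i) => φ (product g x y))
  have e1 : (fun (x : ∀ i, X i) (y : ∀ i, Y i) => φ (product g x y)) =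
      fun x y => φ (Pool.Agent.V7H36.LR.product g x y) := rfl
  rw [e1] at h1 ⊢
  gcongr

/-- **The log-rank conjecture for products over a finite monoid and for bounded-width programs.**

(1) Let `M` be a finite monoid. There is a constant `c`, and for every `d` a constant `C`, such that
the following holds for all `n`, all finite sets `X_i`, `Y_i`, all functions `g_i : X_i × Y_i → M`
(`i = 1, …, n`) and all `φ : M → {0,1}`. If every function `Z(g_i(x_i, y_i))` with
`Z : M → {0,1}` has a protocol with at most `K (log₂ rank + 1)^d` bits, then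
`F(x, y) = φ(g_1(x_1, y_1) ⋯ g_n(x_n, y_n))` has a protocol with at most
`C (K + 1)^2 (log₂ rank F + 1)^(c + 2d)` bits.

(2) For all `w` and `p` there are constants `C`, `c` such that every function `F(x, y)` on
`{0,1}^n × {0,1}^n` that is computed by a program with `w` states which makes `p` passes over the
pairs `(x_1, y_1), …, (x_n, y_n)`, each of them from left to right or from right to left, has a
protocol with at most `C (log₂ rank F + 1)^c` bits. (`p = 1`: read-once branching programs of
width `w`, under every partition of the variables between the two players.) -/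
theorem result :
    (∀ (M : Type) [Fintype M] [Monoid M], ∃ c : ℕ, ∀ d : ℕ, ∃ C : ℕ, ∀ (K n : ℕ)
      (X Y : Fin n → Type) [∀ i, Fintype (X i)] [∀ i, Fintype (Y i)]
      (g : ∀ i, X i → Y i → M) (φ : M → Bool),
      (∀ i (Z : M → Bool), ∃ b : ℕ, HasProtocol (fun x y => Z (g i x y)) b ∧
        (b : ℝ) ≤ K * (logRank (fun x y => Z (g i x y)) + 1) ^ d) →
      ∃ b : ℕ, HasProtocol (fun x y => φ (product g x y)) b ∧
        (b : ℝ) ≤ C * (K + 1 : ℝ) ^ 2 *
          (logRank (fun x y => φ (product g x y)) + 1) ^ (c + 2 * d)) ∧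
    (∀ w p : ℕ, ∃ C c : ℕ, ∀ (n : ℕ) (back : Fin p → Bool)
      (δ : Fin p → Fin n → Bool → Bool → Fin w → Fin w) (s₀ : Fin w) (acc : Fin w → Bool),
      ∃ b : ℕ, HasProtocol (programFun back δ s₀ acc) b ∧
        (b : ℝ) ≤ C * (logRank (programFun back δ s₀ acc) + 1) ^ c) := by
  refine ⟨?_, ?_⟩
  · intro M _ _
    refine ⟨4 * Pool.Agent.V7H36.LR.height (Fintype.card M), fun d =>
      ⟨Pool.Agent.V7H36.LR.bigC (Fintype.card M) d, ?_⟩⟩
    intro K n X Y _ _ g φ hg
    exact closure d K n X Y g φ hg
  · intro w p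
    refine ⟨Pool.Agent.V7H36.LR.bigC (Fintype.card (Tr w p)) 0 * 9,
      4 * Pool.Agent.V7H36.LR.height (Fintype.card (Tr w p)), ?_⟩
    intro n back δ s₀ acc
    let g : ∀ _ : Fin n, Bool → Bool → Tr w p := fun i a b => ⟨fun j => δ j i a b, fun j => δ j i a b⟩
    let φ : Tr w p → Bool := fun m =>
      acc ((List.ofFn (fun j => if back j then m.bwd j else m.fwd j)).foldl (fun s f => f s) s₀)
    have hF : programFun back δ s₀ acc =
        fun x y => φ (product (X := fun _ => Bool) (Y := fun _ => Bool) g x y) := by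
      funext x y
      simp only [programFun, φ]
      congr 3
      funext j
      funext s
      unfold pass product
      by_cases hb : back j = true
      · rw [if_pos hb, if_pos hb, Pool.Agent.V7H36.LR.bwd_prod, List.map_ofFn]
        rfl
      · rw [if_neg hb, if_neg hb, Pool.Agent.V7H36.LR.fwd_prod, List.map_ofFn]
        rfl
    have h := closure 0 2 n (fun _ => Bool) (fun _ => Bool) g φ (fun i Z => by
      refine ⟨2, Pool.Agent.TH744.LR.Prot.of_card _ 1 (by simp), by norm_num⟩)
    rw [hF]
    obtain ⟨b, hb, hb2⟩ := h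
    refine ⟨b, hb, hb2.trans (le_of_eq ?_)⟩
    push_cast
    ring_nf

end Pool.Agent.Results.MP_e5d384_lc.FiniteMonoidProgramsH36
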