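import Pool.Agent.V7H96.HG.Red

set_option autoImplicit false

/-!
# The log-rank conjecture for hereditary classes of graphs: a dichotomy

Let `A` be the adjacency matrix of a finite graph `G`, `r` its real rank and `D` its deterministic
communication complexity (Alice has a vertex, Bob has a vertex, they want to know whether the two are
adjacent). If some bipartite graph on `k` vertices is not an induced subgraph of `G`, then
`D ≤ 20 (k + 1) (1 + log₂ (r + 1))²`. So the log-rank conjecture holds, with the exponent two, for the
adjacency matrices of every hereditary class of graphs which does not contain all bipartite graphs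
(claw-free graphs, graphs without induced cycles of length four, without induced paths on `t`
vertices, ...), and for all other hereditary classes it is equivalent to the full conjecture.

Proof. A greedy embedding of the missing graph fails, so that there are two large sets of vertices
with very few edges, or very few missing edges, between the vertices of the first and the second one.
As the rank is small, the few edges concern only a half of the second set: so each set `U` of
vertices contains a homogeneous pair of sets of size `|U| / r ^ O(k)`. Iteration gives `r + 1` sets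
with no edges between them or `r + 1` sets with all edges between them. The second case contradicts
the rank, and in the first one some set has no edges inside: a matrix with `r + 1` nonzero diagonal
blocks has rank more than `r`. This gives colourings with `exp (O (k log² r))` colours. Between two
independent sets the missing bipartite graph bounds the Vapnik-Chervonenkis dimension, and together
with the rank the number of different rows.
-/

namespace Pool.Agent.Results.MP_e5d384_lc.HereditaryGraphClassesH96

open Classical in
/-- the adjacency matrix of a graph -/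
noncomputable def adj {V : Type} (G : SimpleGraph V) : V → V → Bool := fun x y => decide (G.Adj x y)

/-- `F` has a deterministic two-party protocol with exactly `c` bits. (Protocols exactly as in the
frozen statement S15531: `t` is the transcript so far, `owner t` says who speaks, and the answer is
a function of the transcript.) -/
def HasProtocol {X Y : Type} (F : X → Y → Bool) (c : ℕ) : Prop :=
  ∃ (owner : List Bool → Bool) (a : List Bool → X → Bool)
      (b : List Bool → Y → Bool) (out : List Bool → Bool),
      ∀ x y, out (Nat.iterate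
        (fun t : List Bool => t ++ [if owner t then a t x else b t y]) c []) = F x y

/-- the real rank of the communication matrix of `F` -/
noncomputable def rk {X Y : Type} [Fintype Y] (F : X → Y → Bool) : ℕ :=
  (Matrix.of (fun (x : X) (y : Y) => if F x y then (1 : ℝ) else 0)).rank

/-- the log-rank conjecture (the statement S15531) -/
def LogRank : Prop :=
  ∃ C k : ℕ, ∀ n : ℕ, ∀ F : (Fin n → ZMod 2) → (Fin n → ZMod 2) → Bool,
    ∃ c : ℕ, HasProtocol F c ∧ (c : ℝ) ≤ (C : ℝ) * (Real.logb 2 (rk F : ℝ)) ^ k + (C : ℝ)

/-- the log-rank conjecture for the adjacency matrices of the graphs of the class `𝒞` -/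
def LogRankOn (𝒞 : ∀ n : ℕ, SimpleGraph (Fin n) → Prop) : Prop :=
  ∃ C k : ℕ, ∀ (n : ℕ) (G : SimpleGraph (Fin n)), 𝒞 n G →
    ∃ c : ℕ, HasProtocol (adj G) c ∧
      (c : ℝ) ≤ (C : ℝ) * (Real.logb 2 (rk (adj G) : ℝ)) ^ k + (C : ℝ)

/-- A class of finite graphs is hereditary if it contains all induced subgraphs of its members (in
particular all the graphs isomorphic to its members). -/
def Hereditary (𝒞 : ∀ n : ℕ, SimpleGraph (Fin n) → Prop) : Prop :=
  ∀ (n m : ℕ) (G : SimpleGraph (Fin n)) (H : SimpleGraph (Fin m)), 𝒞 n G → Nonempty (H ↪g G) → 𝒞 m H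

/-- The class contains all finite bipartite graphs. -/
def ContainsBipartite (𝒞 : ∀ n : ℕ, SimpleGraph (Fin n) → Prop) : Prop :=
  ∀ (n : ℕ) (B : SimpleGraph (Fin n)), B.Colorable 2 → 𝒞 n B

theorem adj_eq {V : Type} (G : SimpleGraph V) : adj G = Pool.Agent.V7H96.HG.adj G := by
  funext x y
  unfold adj Pool.Agent.V7H96.HG.adj
  congr

theorem rk_eq {X Y : Type} [Finite X] [Fintype Y] (F : X → Y → Bool) :
    rk F = Pool.Agent.V7H96.HG.prk fun x y => F x y = true := by
  rw [Pool.Agent.V7H96.HG.prk_eq_rank (fun x y => F x y = true)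
    (Matrix.of (fun (x : X) (y : Y) => if F x y then (1 : ℝ) else 0))]
  · rfl
  · intro x y
    unfold Pool.Agent.V7H96.HG.prow
    cases h : F x y <;> simp [h]

theorem rk_adj {V : Type} [Fintype V] (G : SimpleGraph V) :
    rk (adj G) = Pool.Agent.V7H96.HG.prk G.Adj := by
  rw [rk_eq]
  congr 1
  funext x y
  simp [adj]

theorem one_add_logb (n : ℕ) : Real.logb 2 ((n : ℝ) + 1) ≤ 1 + Real.logb 2 n := by
  rcases Nat.eq_zero_or_pos n with h | h
  · subst h
    simp
  · have h1 : (1 : ℝ) ≤ n := by exact_mod_cast h
    have h2 : Real.logb 2 (2 : ℝ) = 1 := Real.logb_self_eq_one (by norm_num)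
    calc Real.logb 2 ((n : ℝ) + 1) ≤ Real.logb 2 (2 * (n : ℝ)) :=
          Real.logb_le_logb_of_le (by norm_num) (by linarith) (by linarith)
      _ = _ := by rw [Real.logb_mul (by norm_num) (by linarith), h2]

theorem logb_nat_nonneg (n : ℕ) : 0 ≤ Real.logb 2 (n : ℝ) := by
  rcases Nat.eq_zero_or_pos n with h | h
  · subst h
    simp
  · exact Real.logb_nonneg (by norm_num) (by exact_mod_cast h)

theorem logb_mono {m n : ℕ} (h : m ≤ n) : Real.logb 2 (m : ℝ) ≤ Real.logb 2 n := by
  rcases Nat.eq_zero_or_pos m with h' | h'
  · subst h'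
    simpa using logb_nat_nonneg n
  · exact Real.logb_le_logb_of_le (by norm_num) (by exact_mod_cast h') (by exact_mod_cast h)

/-- **The log-rank conjecture for hereditary classes of graphs: a dichotomy.**

(1) If the bipartite graph `B` on `k` vertices is not an induced subgraph of the finite graph `G`,
then the adjacency matrix of `G` has a deterministic protocol with at most
`20 (k + 1) (1 + log₂ (rank + 1))²` bits.

(2) The log-rank conjecture holds for the adjacency matrices of every hereditary class of graphs
which does not contain all bipartite graphs. For every class which contains all bipartite graphs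
it is equivalent to the full log-rank conjecture. -/
theorem result :
    (∀ (V : Type) [Fintype V] (G : SimpleGraph V) (k : ℕ) (B : SimpleGraph (Fin k)),
      B.Colorable 2 → IsEmpty (B ↪g G) → ∃ c : ℕ, HasProtocol (adj G) c ∧
        (c : ℝ) ≤ 20 * (k + 1) * (1 + Real.logb 2 (rk (adj G) + 1)) ^ 2) ∧
    (∀ 𝒞 : (∀ n : ℕ, SimpleGraph (Fin n) → Prop),
      (Hereditary 𝒞 → ¬ ContainsBipartite 𝒞 → LogRankOn 𝒞) ∧
      (ContainsBipartite 𝒞 → (LogRankOn 𝒞 ↔ LogRank))) := by
  have part2 : ∀ (V : Type) [Fintype V] (G : SimpleGraph V) (k : ℕ) (B : SimpleGraph (Fin k)),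
      B.Colorable 2 → IsEmpty (B ↪g G) → ∃ c : ℕ, HasProtocol (adj G) c ∧
        (c : ℝ) ≤ 20 * (k + 1) * (1 + Real.logb 2 (rk (adj G) + 1)) ^ 2 := by
    intro V _ G k B hB2 hB
    obtain ⟨c, h1, h2⟩ := Pool.Agent.V7H96.HG.main_proto G B hB2 hB
    rw [rk_adj, adj_eq]
    exact ⟨c, h1, h2⟩
  refine ⟨part2, ?_⟩
  · intro 𝒞
    refine ⟨fun hher hnot => ?_, fun hbip => ⟨fun hlr => ?_, fun hlr => ?_⟩⟩
    · unfold ContainsBipartite at hnot
      push Not at hnot
      obtain ⟨k, B, hB2, hB⟩ := hnot
      refine ⟨160 * (k + 1), 2, fun n G hG => ?_⟩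
      obtain ⟨c, h1, h2⟩ := part2 (Fin n) G k B hB2 ⟨fun f => hB (hher n k G B hG ⟨f⟩)⟩
      refine ⟨c, h1, h2.trans ?_⟩
      have h3 := one_add_logb (rk (adj G))
      have h4 := logb_nat_nonneg (rk (adj G))
      have h5 : 0 ≤ Real.logb 2 ((rk (adj G) : ℝ) + 1) := Real.logb_nonneg (by norm_num) (by
        have : (0 : ℝ) ≤ (rk (adj G) : ℝ) := Nat.cast_nonneg _
        linarith)
      set l := Real.logb 2 (rk (adj G) : ℝ) with hl
      have h6 : (1 + Real.logb 2 ((rk (adj G) : ℝ) + 1)) ^ 2 ≤ 8 + 2 * l ^ 2 := by
        calc (1 + Real.logb 2 ((rk (adj G) : ℝ) + 1)) ^ 2 ≤ (2 + l) ^ 2 := by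
              apply pow_le_pow_left₀ (by linarith)
              linarith
          _ ≤ 8 + 2 * l ^ 2 := by nlinarith [sq_nonneg (2 - l)]
      have hk0 : (0 : ℝ) ≤ k := Nat.cast_nonneg k
      push_cast
      nlinarith [mul_nonneg hk0 (sq_nonneg l), sq_nonneg l]
    · obtain ⟨C, k, h⟩ := hlr
      refine ⟨C * 2 ^ k + C, k, fun n F => ?_⟩
      obtain ⟨N, G, h1, h2, h3⟩ := Pool.Agent.V7H96.HG.bip_reduction F
      obtain ⟨c, h4, h5⟩ := h N G (hbip N G h1)
      rw [adj_eq] at h4
      refine ⟨c, h3 c h4, h5.trans ?_⟩
      rw [← rk_adj, ← rk_eq] at h2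
      have h6 : Real.logb 2 (rk (adj G) : ℝ) ≤ 1 + Real.logb 2 (rk F : ℝ) := by
        rcases Nat.eq_zero_or_pos (rk F) with h0 | h0
        · rw [h0] at h2 ⊢
          have : rk (adj G) = 0 := by omega
          rw [this]
          simp
        · have h7 : (0 : ℝ) < rk F := by exact_mod_cast h0
          have h8 : Real.logb 2 (2 : ℝ) = 1 := Real.logb_self_eq_one (by norm_num)
          calc Real.logb 2 (rk (adj G) : ℝ) ≤ Real.logb 2 ((2 * rk F : ℕ) : ℝ) := logb_mono h2
            _ = _ := by
              push_cast
              rw [Real.logb_mul (by norm_num) h7.ne', h8]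
      have h7 := logb_nat_nonneg (rk (adj G))
      have h8 := logb_nat_nonneg (rk F)
      set l := Real.logb 2 (rk F : ℝ) with hl
      have h9 : Real.logb 2 (rk (adj G) : ℝ) ^ k ≤ 2 ^ k * (1 + l ^ k) := by
        calc Real.logb 2 (rk (adj G) : ℝ) ^ k ≤ (2 * max 1 l) ^ k := by
              apply pow_le_pow_left₀ h7
              have := le_max_left 1 l
              have := le_max_right 1 l
              linarith
          _ = 2 ^ k * (max 1 l) ^ k := mul_pow _ _ _
          _ ≤ 2 ^ k * (1 + l ^ k) := by
              gcongr
              rcases le_total 1 l with h | h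
              · rw [max_eq_right h]
                linarith
              · rw [max_eq_left h, one_pow]
                have := pow_nonneg h8 k
                linarith
      have hC : (0 : ℝ) ≤ C := Nat.cast_nonneg C
      have h10 : 0 ≤ l ^ k := pow_nonneg h8 k
      push_cast
      calc (C : ℝ) * Real.logb 2 (rk (adj G) : ℝ) ^ k + C ≤ C * (2 ^ k * (1 + l ^ k)) + C := by
            gcongr
        _ ≤ (C * 2 ^ k + C) * l ^ k + (C * 2 ^ k + C) := by nlinarith [mul_nonneg hC h10]
    · obtain ⟨C, k, h⟩ := hlr
      refine ⟨C, k, fun n G _ => ?_⟩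
      obtain ⟨F, h1, h2⟩ := Pool.Agent.V7H96.HG.cube_reduction n G
      obtain ⟨c, h3, h4⟩ := h n F
      refine ⟨c, ?_, h4.trans ?_⟩
      · rw [adj_eq]
        exact h2 c h3
      · rw [← rk_adj, ← rk_eq] at h1
        have := logb_mono h1
        have := logb_nat_nonneg (rk F)
        gcongr

end Pool.Agent.Results.MP_e5d384_lc.HereditaryGraphClassesH96
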