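import Pool.Agent.V7H64.LR.Num

/-!
# The log-rank conjecture is closed under read-once composition with gates of bounded fan-in

The inner functions may depend on one of the two inputs only, so this contains the functions
`F(x, y)` given by a read-once formula over any basis of bounded fan-in (for instance all binary
gates), of any depth, with the variables distributed between the players in any way.
-/

set_option autoImplicit false

namespace Pool.Agent.Results.MP_e5d384_lc.ReadOnceH64

open Pool.Agent.V7H64.LR

/-- `F` has a deterministic two-party protocol with exactly `c` bits. (Protocols exactly as in the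
frozen statement S15531: `t` is the transcript so far, `owner t` says who speaks, and the answer is
a function of the transcript.) -/
def HasProtocol {X Y : Type} (F : X → Y → Bool) (c : ℕ) : Prop :=
  ∃ (owner : List Bool → Bool) (a : List Bool → X → Bool)
      (b : List Bool → Y → Bool) (out : List Bool → Bool),
      ∀ x y, out (Nat.iterate
        (fun t : List Bool => t ++ [if owner t then a t x else b t y]) c []) = F x y

/-- `log₂` of the real rank of the communication matrix of `F` (`0` if the rank is `0`) -/
noncomputable def logRank {X Y : Type} [Fintype X] [Fintype Y] (F : X → Y → Bool) : ℝ :=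
  Real.logb 2 ((Matrix.of (fun (x : X) (y : Y) => if F x y then (1 : ℝ) else 0)).rank : ℝ)

/-- the composition `F(x, y) = g(f_1(x_1, y_1), ..., f_n(x_n, y_n))` -/
def compose {n : ℕ} {X Y : Fin n → Type} (g : (Fin n → Bool) → Bool)
    (f : ∀ i, X i → Y i → Bool) : (∀ i, X i) → (∀ i, Y i) → Bool :=
  fun x y => g (fun i => f i (x i) (y i))

/-- The functions obtained from functions `F` which have a protocol with at most
`K (log₂ rank F + 1)^C` bits by composition, any number of times, with gates `g` with at most `k`
inputs. -/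
inductive Composed (K C k : ℕ) : ∀ (X Y : Type), (X → Y → Bool) → Prop
  | inner (X Y : Type) [Fintype X] [Fintype Y] (F : X → Y → Bool) (c : ℕ) (h : HasProtocol F c)
      (hc : (c : ℝ) ≤ K * (logRank F + 1) ^ C) : Composed K C k X Y F
  | gate (n : ℕ) (hn : n ≤ k) (X Y : Fin n → Type) [∀ i, Fintype (X i)] [∀ i, Fintype (Y i)]
      (g : (Fin n → Bool) → Bool) (f : ∀ i, X i → Y i → Bool)
      (h : ∀ i, Composed K C k (X i) (Y i) (f i)) :
      Composed K C k (∀ i, X i) (∀ i, Y i) (compose g f)

/-- formulas with variables in `V` and arbitrary Boolean functions as gates -/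
inductive Formula (V : Type) : Type
  | var (v : V) : Formula V
  | gate (n : ℕ) (g : (Fin n → Bool) → Bool) (φ : Fin n → Formula V) : Formula V

namespace Formula

variable {V : Type}

/-- the value of a formula -/
def eval : Formula V → (V → Bool) → Bool
  | var v, s => s v
  | gate _ g φ, s => g (fun i => (φ i).eval s)

/-- the set of the variables of a formula -/
def vars : Formula V → Set V
  | var v => {v}
  | gate _ _ φ => {v | ∃ i, v ∈ (φ i).vars}

/-- every variable occurs at most once -/
def ReadOnce : Formula V → Prop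
  | var _ => True
  | gate _ _ φ => (∀ i, (φ i).ReadOnce) ∧ ∀ i j, i ≠ j → Disjoint (φ i).vars (φ j).vars

/-- every gate has at most `k` inputs -/
def FanIn (k : ℕ) : Formula V → Prop
  | var _ => True
  | gate n _ φ => n ≤ k ∧ ∀ i, (φ i).FanIn k

theorem eval_congr (φ : Formula V) : ∀ {s s' : V → Bool}, (∀ v ∈ φ.vars, s v = s' v) →
    φ.eval s = φ.eval s' := by
  induction φ with
  | var v =>
    intro s s' h
    exact h v rfl
  | gate n g φ ih =>
    intro s s' h
    show g (fun i => (φ i).eval s) = g (fun i => (φ i).eval s')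
    congr 1
    funext i
    exact ih i fun v hv => h v ⟨i, hv⟩

end Formula

/-- the inner functions -/
def Good (K C : ℕ) (X Y : Type) (F : X → Y → Bool) : Prop :=
  ∃ (_ : Fintype X) (_ : Fintype Y) (c : ℕ), HasProtocol F c ∧
    (c : ℝ) ≤ K * (logRank F + 1) ^ C

theorem bound {K C k : ℕ} {X Y : Type} [Fintype X] [Fintype Y] {F : X → Y → Bool}
    (h : RO k (Good K C) X Y F) : ∃ c : ℕ, HasProtocol F c ∧
      (c : ℝ) ≤ (K * 2 ^ C + 100 * (k + 1)) * (logRank F) ^ (max C (Nat.clog 2 (k - 1) + 2)) + 10 := by
  set A := K * 2 ^ C + 100 * (k + 1) with hA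
  obtain ⟨e, he⟩ : ∃ e, max C (Nat.clog 2 (k - 1) + 2) = e + 2 :=
    ⟨max C (Nat.clog 2 (k - 1) + 2) - 2, by omega⟩
  have hke : k - 1 ≤ 2 ^ e := by
    refine (Nat.le_pow_clog (b := 2) (by norm_num) (k - 1)).trans ?_
    exact Nat.pow_le_pow_right (by norm_num) (by omega)
  have h1 := main (T := bits A (e + 2)) (bits_mono A (e + 2))
    (fun R a hR ha h34 => num_H1 k A e hke (by omega) R a hR ha h34) ?_ ?_ (mu F) X Y F h rfl
  · refine ⟨_, h1, ?_⟩
    rw [he]
    refine (bits_le A (e + 2) (mu F)).trans ?_
    have h2 : Real.logb 2 (mu F : ℝ) ≤ logRank F := log_mono (mu_le_rank F)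
    have h3 := log_nonneg' (mu F)
    have h4 : (A : ℝ) = K * 2 ^ C + 100 * (k + 1) := by rw [hA]; push_cast; ring
    rw [h4]
    have h5 := pow_le_pow_left₀ h3 h2 (e + 2)
    have h6 : (0 : ℝ) ≤ K * 2 ^ C + 100 * (k + 1) := by positivity
    have := mul_le_mul_of_nonneg_left h5 h6
    linarith
  · rintro R X Y F - - ⟨_, _, c, hc1, hc2⟩ hR hmu -
    refine ⟨c, hc1, num_H2 K C k A (e + 2) (by omega) (by omega) le_rfl R hR c (logRank F)
      (log_nonneg' _) ?_ hc2⟩
    have h2 : (Pool.Agent.TH744.LR.cm F).rank ≤ 2 * R := by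
      have := rank_le_mu F
      omega
    have h3 : logRank F ≤ Real.logb 2 ((2 * R : ℕ) : ℝ) := log_mono h2
    refine h3.trans (le_of_eq ?_)
    push_cast
    rw [Real.logb_mul (by norm_num) (by exact_mod_cast (show R ≠ 0 by omega)),
      Real.logb_self_eq_one (by norm_num)]
    ring
  · intro R hR
    unfold bits
    omega

theorem ro_of_composed {K C k : ℕ} {X Y : Type} {F : X → Y → Bool} (h : Composed K C k X Y F) :
    RO k (Good K C) X Y F := by
  induction h with
  | inner X Y F c h hc =>
    exact RO.leaf X Y F inferInstance inferInstance ⟨_, _, c, h, hc⟩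
  | gate n hn X Y g f h ih =>
    exact RO.node _ _ n hn inferInstance inferInstance
      { X' := X
        Y' := Y
        p := fun j x => x j
        q := fun j y => y j
        hp := fun a => ⟨a, fun _ => rfl⟩
        hq := fun b => ⟨b, fun _ => rfl⟩
        f := f } g ih

open Classical in
theorem ro_of_formula {A B : Type} [Finite A] [Finite B] {k : ℕ} (φ : Formula (A ⊕ B)) :
    φ.ReadOnce → φ.FanIn k → ∀ (X Y : Type) (_ : Finite X) (_ : Finite Y) (α : X → A → Bool)
      (β : Y → B → Bool), (∀ s : A → Bool, ∃ x, ∀ a, Sum.inl a ∈ φ.vars → α x a = s a) →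
      (∀ s : B → Bool, ∃ y, ∀ b, Sum.inr b ∈ φ.vars → β y b = s b) →
      RO k (Good 1 0) X Y (fun x y => φ.eval (Sum.elim (α x) (β y))) := by
  induction φ with
  | var v =>
    intro _ _ X Y hX hY α β _ _
    refine RO.leaf X Y _ hX hY ⟨Fintype.ofFinite X, Fintype.ofFinite Y, 1, ?_, by norm_num⟩
    rcases v with a | b
    · exact Pool.Agent.TH744.LR.Prot.alice (fun x => α x a)
    · exact Pool.Agent.TH744.LR.Prot.bob (fun y => β y b)
  | gate n g φ ih =>
    rintro ⟨h1, h2⟩ ⟨h3, h4⟩ X Y hX hY α β hα hβ
    let S : Parts n X Y :=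
      { X' := fun i => {a : A // Sum.inl a ∈ (φ i).vars} → Bool
        Y' := fun i => {b : B // Sum.inr b ∈ (φ i).vars} → Bool
        p := fun i x a => α x a.1
        q := fun i y b => β y b.1
        hp := by
          intro s
          obtain ⟨x, hx⟩ := hα (fun a => if h : ∃ i, Sum.inl a ∈ (φ i).vars then
            s h.choose ⟨a, h.choose_spec⟩ else false)
          refine ⟨x, fun i => ?_⟩
          funext ⟨a, ha⟩
          have hex : ∃ i, Sum.inl a ∈ (φ i).vars := ⟨i, ha⟩
          show α x a = s i ⟨a, ha⟩
          rw [hx a ⟨i, ha⟩, dif_pos hex]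
          have hi : hex.choose = i := by
            by_contra hne
            exact Set.disjoint_left.1 (h2 _ _ hne) hex.choose_spec ha
          have : ∀ (j : Fin n) (hj : Sum.inl a ∈ (φ j).vars), j = i →
              s j ⟨a, hj⟩ = s i ⟨a, ha⟩ := by
            rintro j hj rfl
            rfl
          exact this _ _ hi
        hq := by
          intro s
          obtain ⟨y, hy⟩ := hβ (fun b => if h : ∃ i, Sum.inr b ∈ (φ i).vars then
            s h.choose ⟨b, h.choose_spec⟩ else false)
          refine ⟨y, fun i => ?_⟩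
          funext ⟨b, hb⟩
          have hex : ∃ i, Sum.inr b ∈ (φ i).vars := ⟨i, hb⟩
          show β y b = s i ⟨b, hb⟩
          rw [hy b ⟨i, hb⟩, dif_pos hex]
          have hi : hex.choose = i := by
            by_contra hne
            exact Set.disjoint_left.1 (h2 _ _ hne) hex.choose_spec hb
          have : ∀ (j : Fin n) (hj : Sum.inr b ∈ (φ j).vars), j = i →
              s j ⟨b, hj⟩ = s i ⟨b, hb⟩ := by
            rintro j hj rfl
            rfl
          exact this _ _ hi
        f := fun i x y => (φ i).eval (Sum.elim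
          (fun a => if h : Sum.inl a ∈ (φ i).vars then x ⟨a, h⟩ else false)
          (fun b => if h : Sum.inr b ∈ (φ i).vars then y ⟨b, h⟩ else false)) }
    have hS : S.cmp g = fun x y => (Formula.gate n g φ).eval (Sum.elim (α x) (β y)) := by
      funext x y
      show g (fun i => (φ i).eval _) = g (fun i => (φ i).eval _)
      congr 1
      funext i
      refine (φ i).eval_congr ?_
      rintro (a | b) hv
      · simp only [Sum.elim_inl]
        rw [dif_pos hv]
      · simp only [Sum.elim_inr]
        rw [dif_pos hv]
    rw [← hS]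
    refine RO.node X Y n h3 hX hY S g fun i => ?_
    refine ih i (h1 i) (h4 i) _ _ inferInstance inferInstance
      (fun (x : {a : A // Sum.inl a ∈ (φ i).vars} → Bool) a =>
        if h : Sum.inl a ∈ (φ i).vars then x ⟨a, h⟩ else false)
      (fun (y : {b : B // Sum.inr b ∈ (φ i).vars} → Bool) b =>
        if h : Sum.inr b ∈ (φ i).vars then y ⟨b, h⟩ else false) ?_ ?_
    · intro s
      exact ⟨fun a => s a.1, fun a ha => by rw [dif_pos ha]⟩
    · intro s
      exact ⟨fun b => s b.1, fun b hb => by rw [dif_pos hb]⟩

/-- **The log-rank conjecture for read-once compositions with gates of bounded fan-in.**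
(1) Let `F` be obtained, by composition any number of times with arbitrary gates with at most `k`
inputs, from inner functions `f` on disjoint parts of the input which have protocols with at most
`K (log₂ rank f + 1)^C` bits. Then `F` has a protocol with at most
`(K 2^C + 100 (k + 1)) (log₂ rank F)^e + 10` bits, `e = max C (⌈log₂ (k - 1)⌉ + 2)`.
(2) In particular let `φ` be a read-once formula with variables in `A ⊔ B` and arbitrary gates with
at most `k` inputs. Then `F(x, y) = φ(x, y)`, Alice having the variables in `A` and Bob those in `B`,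
has a protocol with at most `(100 k + 101) (log₂ rank F)^(⌈log₂ (k - 1)⌉ + 2) + 10` bits. For `k = 2`
(all binary gates, so also AND, OR and XOR gates with any number of inputs) this is
`301 (log₂ rank F)^2 + 10`. -/
theorem result :
    (∀ (K C k : ℕ) (X Y : Type) [Fintype X] [Fintype Y] (F : X → Y → Bool),
      Composed K C k X Y F → ∃ c : ℕ, HasProtocol F c ∧
        (c : ℝ) ≤ (K * 2 ^ C + 100 * (k + 1)) * (logRank F) ^ (max C (Nat.clog 2 (k - 1) + 2))
          + 10) ∧
    (∀ (k : ℕ) (A B : Type) [Fintype A] [Fintype B] [DecidableEq A] [DecidableEq B]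
      (φ : Formula (A ⊕ B)), φ.ReadOnce → φ.FanIn k →
      ∃ c : ℕ, HasProtocol (fun (x : A → Bool) (y : B → Bool) => φ.eval (Sum.elim x y)) c ∧
        (c : ℝ) ≤ (100 * k + 101) *
          (logRank (fun (x : A → Bool) (y : B → Bool) => φ.eval (Sum.elim x y))) ^
            (Nat.clog 2 (k - 1) + 2) + 10) := by
  refine ⟨fun K C k X Y _ _ F h => bound (ro_of_composed h), ?_⟩
  intro k A B _ _ _ _ φ h1 h2
  obtain ⟨c, hc1, hc2⟩ := bound (ro_of_formula (k := k) φ h1 h2 (A → Bool) (B → Bool)
    inferInstance inferInstance (fun x => x) (fun y => y) (fun s => ⟨s, fun _ _ => rfl⟩)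
    (fun s => ⟨s, fun _ _ => rfl⟩))
  refine ⟨c, hc1, hc2.trans (le_of_eq ?_)⟩
  rw [Nat.zero_max]
  push_cast
  ring

end Pool.Agent.Results.MP_e5d384_lc.ReadOnceH64
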